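import Pool.Agent.helper88.RQ2.Spec

set_option autoImplicit false

open Set Matroid RadonMin

namespace RadonQ2

theorem MSUM_proof : MSUM_stmt := by
  intro α M _ a b hb ha
  classical
  have hEf : M.E.Finite := M.ground_finite
  have hSf : {C : Set α | M.IsCircuit C}.Finite :=
    hEf.finite_subsets.subset fun C hC => hC.subset_ground
  set T : Finset (Set α) := hSf.toFinset with hT
  set E : Finset α := hEf.toFinset with hE
  have hTm : ∀ C, C ∈ T ↔ M.IsCircuit C := by
    intro C
    rw [hT, Set.Finite.mem_toFinset]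
    rfl
  have hcc : cc M = T.card := by
    unfold cc
    rw [Set.ncard_eq_toFinset_card _ hSf]
  have hce : ∀ e, ce M e = (T.bipartiteAbove (fun (e : α) (C : Set α) => e ∈ C) e).card := by
    intro e
    unfold ce
    rw [← Set.ncard_coe_finset]
    congr 1
    ext C
    simp [Finset.bipartiteAbove, hTm]
  have hdc := Finset.sum_card_bipartiteAbove_eq_sum_card_bipartiteBelow
    (fun (e : α) (C : Set α) => e ∈ C) (s := E) (t := T)
  have h1 : E.card * a ≤ ∑ e ∈ E, (T.bipartiteAbove (fun (e : α) (C : Set α) => e ∈ C) e).card := by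
    rw [← smul_eq_mul]
    refine Finset.card_nsmul_le_sum _ _ _ fun e he => ?_
    rw [← hce]
    exact ha e (by rw [hE, Set.Finite.mem_toFinset] at he; exact he)
  have h2 : ∑ C ∈ T, (E.bipartiteBelow (fun (e : α) (C : Set α) => e ∈ C) C).card ≤ T.card * b := by
    rw [← smul_eq_mul]
    refine Finset.sum_le_card_nsmul _ _ _ fun C hC => ?_
    have hCc := (hTm C).1 hC
    refine le_trans (le_of_eq ?_) (hb C hCc)
    rw [← Set.ncard_coe_finset]
    congr 1
    ext e
    simp only [Finset.bipartiteBelow, Finset.coe_filter, Set.mem_ofPred_eq, hE,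
      Set.Finite.mem_toFinset]
    exact ⟨fun h => h.2, fun h => ⟨hCc.subset_ground h, h⟩⟩
  rw [Set.ncard_eq_toFinset_card _ hEf, hcc]
  calc hEf.toFinset.card * a = E.card * a := by rw [hE]
    _ ≤ _ := h1
    _ = _ := hdc
    _ ≤ _ := h2

end RadonQ2
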